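import Pool.Agent.Q54.TK.StmA

/-! Project TK: product formula and its first consequences (`EBP`, `EIA`, `EKP`, `TS1`, `TS3`). -/

set_option autoImplicit false

open Finset
open Pool.Agent.Q54.TK

namespace Pool.Agent.Q203.TK

/-- product formula for the weights -/
lemma sum_prod {α : Type} [Fintype α] [DecidableEq α] (u w : α → ℝ) :
    ∑ S : Finset α, ∏ i, (if i ∈ S then u i else w i) = ∏ i, (u i + w i) := by
  rw [Finset.prod_add, Finset.powerset_univ]
  refine Finset.sum_congr rfl fun S _ => ?_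
  rw [Finset.prod_ite]
  congr 1
  · congr 1
    ext i
    simp
  · congr 1
    ext i
    simp

theorem ebp : S_EBP := by
  intro α _ _ p a b R
  unfold EB
  have h1 : ∀ S : Finset α, (∏ i, if i ∈ S then p i else 1 - p i) *
      (∏ i ∈ R, if i ∈ S then a i else b i) =
      ∏ i, (if i ∈ S then p i * (if i ∈ R then a i else 1) else
        (1 - p i) * (if i ∈ R then b i else 1)) := by
    intro S
    rw [← Finset.prod_ite_mem_eq R (fun i => if i ∈ S then a i else b i), ← Finset.prod_mul_distrib]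
    refine Finset.prod_congr rfl fun i _ => ?_
    by_cases h : i ∈ S <;> by_cases h' : i ∈ R <;> simp [h, h']
  rw [Finset.sum_congr rfl fun S _ => h1 S, sum_prod]
  rw [← Finset.prod_ite_mem_eq R (fun i => p i * a i + (1 - p i) * b i)]
  refine Finset.prod_congr rfl fun i _ => ?_
  by_cases h' : i ∈ R <;> simp [h']

theorem eia : S_EBP → S_EIA := by
  intro hE V _ _ M T e κ hG
  classical
  set I : Finset (Finset V) := (e.filter (fun u => u ∉ T)).image (bl M) with hI
  have h1 : ∀ g : Finset (Finset V), IA M T g e = ∏ b ∈ I, if b ∈ g then (1 : ℝ) else 0 := by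
    intro g
    rw [Finset.prod_ite_zero, Finset.prod_const_one]
    have hiff : (Gd M T e ∧ ∀ u ∈ e, Av M T g u) ↔ ∀ b ∈ I, b ∈ g := by
     constructor
     · rintro ⟨-, h⟩ b hb
       obtain ⟨u, hu, rfl⟩ := Finset.mem_image.1 hb
       rw [Finset.mem_filter] at hu
       exact (h u hu.1).resolve_left hu.2
     · intro h
       refine ⟨hG, fun u hu => ?_⟩
       by_cases hT : u ∈ T
       · exact Or.inl hT
       · exact Or.inr (h _ (Finset.mem_image_of_mem _ (Finset.mem_filter.2 ⟨hu, hT⟩)))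
    unfold IA
    by_cases hh : ∀ b ∈ I, b ∈ g
    · rw [if_pos hh, if_pos (hiff.2 hh)]
    · rw [if_neg hh, if_neg (fun h => hh (hiff.1 h))]
  have h2 : EB (fun _ : Finset V => κ) (fun g => IA M T g e) = ∏ b ∈ I, κ := by
    have h3 := hE (Finset V) (fun _ => κ) (fun _ => 1) (fun _ => 0) I
    simp only [mul_one, mul_zero, add_zero] at h3
    rw [← h3]
    congr 1
    funext g
    exact h1 g
  rw [h2, hI, Finset.prod_image]
  · rw [Finset.prod_filter]
    refine Finset.prod_congr rfl fun u _ => ?_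
    unfold aT
    by_cases h : u ∈ T <;> simp [h]
  · intro u hu v hv huv
    rw [Finset.mem_coe, Finset.mem_filter] at hu hv
    exact hG u hu.1 v hv.1 hu.2 hv.2 huv

theorem ekp : S_EBL → S_EBP → S_EKP := by
  intro hL hE V _ _ M κ h0 h1
  obtain ⟨-, -, -, -, -, hS⟩ := hL (Finset V) (fun _ => κ) (fun _ => ⟨h0, h1⟩)
  have e1 : (fun g : Finset (Finset V) => ((M.filter (fun e => e ∉ g)).card : ℝ)) =
      fun g => ∑ e ∈ M, ∏ i ∈ ({e} : Finset (Finset V)), (if i ∈ g then (0 : ℝ) else 1) := by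
    funext g
    rw [Finset.card_filter]
    push_cast
    refine Finset.sum_congr rfl fun e _ => ?_
    rw [Finset.prod_singleton]
    by_cases h : e ∈ g <;> simp [h]
  rw [e1, hS (Finset V) M (fun e g => ∏ i ∈ ({e} : Finset (Finset V)), (if i ∈ g then (0 : ℝ) else 1))]
  rw [Finset.sum_congr rfl fun e _ => hE (Finset V) (fun _ => κ) (fun _ => 0) (fun _ => 1) {e}]
  simp only [Finset.prod_singleton, mul_zero, zero_add, mul_one, Finset.sum_const, nsmul_eq_mul]
  ring

theorem ts3 : S_EBL → S_EBP → S_TS3 := by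
  intro hL hE α _ _ p hp
  obtain ⟨-, -, -, -, -, hS⟩ := hL α p hp
  have e1 : (fun T : Finset α => (T.card : ℝ)) =
      fun T => ∑ v ∈ (univ : Finset α), ∏ i ∈ ({v} : Finset α), (if i ∈ T then (1 : ℝ) else 0) := by
    funext T
    simp
  rw [e1, hS α univ (fun v T => ∏ i ∈ ({v} : Finset α), (if i ∈ T then (1 : ℝ) else 0))]
  rw [Finset.sum_congr rfl fun v _ => hE α p (fun _ => 1) (fun _ => 0) {v}]
  simp

theorem ts1 : S_EBL → S_EBP → S_CCB → S_TS1 := by
  intro hL hE hC V _ _ F k s l hyp hl0 hl1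
  obtain ⟨-, -, -, ht, ha, hta⟩ := hC V F k s l hyp hl0 hl1
  obtain ⟨-, -, hM, -, -, hS⟩ := hL V (tt k s F l) ht
  rw [hS (Finset V) F (fun e T => cc k s F l e * ∏ u ∈ e, aT (l / (1 + l)) T u)]
  have h1 : ∀ e ∈ F, EB (tt k s F l) (fun T => cc k s F l e * ∏ u ∈ e, aT (l / (1 + l)) T u) =
      1 / (qq k s * (1 + l)) := by
    intro e he
    rw [hM]
    have h2 := hE V (tt k s F l) (fun _ => 1) (fun _ => l / (1 + l)) e
    have h3 : EB (tt k s F l) (fun T => ∏ u ∈ e, aT (l / (1 + l)) T u) =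
        ∏ v ∈ e, aa k s F l v := by
      rw [show (fun T => ∏ u ∈ e, aT (l / (1 + l)) T u) =
        (fun T => ∏ i ∈ e, if i ∈ T then (1 : ℝ) else l / (1 + l)) from rfl, h2]
      exact Finset.prod_congr rfl fun v _ => hta v
    rw [h3]
    have hpos : 0 < ∏ v ∈ e, aa k s F l v := Finset.prod_pos fun v _ => ha v
    unfold cc
    rw [if_pos he, one_div, one_div, mul_inv, mul_assoc, inv_mul_cancel₀ hpos.ne', mul_one]
  rw [Finset.sum_congr rfl h1, Finset.sum_const, nsmul_eq_mul, mul_one_div]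

end Pool.Agent.Q203.TK
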